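import Pool.Agent.H14.PD.Stmts

/-!
Project PD (MP_822040_al): module LOC (closed local geodesics are trivial).
-/

set_option autoImplicit false

namespace Pool.Agent.H14.PD

theorem pd_loc : M_LOC := by
  intro hPRB hTQB hRDB hLEN hTRB hTRC hTHN Y S C hG x w hw hw1 hloc
  have hs := C.cm_symm
  have hi := C.cm_irr
  obtain ⟨P1, P2, P3, P4, P5, P6⟩ := hPRB S C.cm
  obtain ⟨T1, T2, T3, T4, T5, T6, T7⟩ := hTQB S C.cm hs
  obtain ⟨R1, R2, R3, R4⟩ := hRDB S C.cm
  obtain ⟨L1, L2, L3, L4, L5⟩ := hLEN S C.cm hs hi
  obtain ⟨B1, B2, B3, B4⟩ := hTRB Y S C.lab C.act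
  obtain ⟨C1, C2, C3, C4⟩ := hTRC Y S C
  have hthin := hTHN Y S C 6 hG
  -- pr of takes
  have htk : ∀ i, Tr C.lab C.act x (w.take i) := by
    intro i
    have : Tr C.lab C.act x (w.take i ++ w.drop i) := by rw [List.take_append_drop]; exact hw
    exact ((B1 _ _ _).1 this).1
  -- the maximum
  obtain ⟨i, hi1, hmax⟩ : ∃ i ∈ Finset.range (w.length + 1), ∀ j ∈ Finset.range (w.length + 1),
      len C.cm (pr C.cm (w.take j)) ≤ len C.cm (pr C.cm (w.take i)) :=
    Finset.exists_max_image _ (fun i => len C.cm (pr C.cm (w.take i))) ⟨0, by simp⟩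
  simp only [Finset.mem_range] at hi1 hmax
  have hsmall : len C.cm (pr C.cm (w.take i)) ≤ 12 := by
    by_cases h1 : i < 13
    · refine le_trans (L1 _) ?_
      rw [List.length_take]; omega
    by_cases h2 : w.length < i + 13
    · have e : pr C.cm (w.take i) = (pr C.cm (w.drop i))⁻¹ := by
        rw [eq_inv_iff_mul_eq_one, ← P3, List.take_append_drop, hw1]
      rw [e, L4]
      refine le_trans (L1 _) ?_
      rw [List.length_drop]; omega
    exfalso
    push Not at h1 h2
    obtain ⟨y, hy1, hy2, hy3, hy4, hy5, hy6⟩ := C3 x _ (htk (i - 13))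
    obtain ⟨z, hz1, hz2, hz3, hz4, hz5, hz6⟩ := C3 x _ (htk (i + 13))
    set a := (w.drop (i - 13)).take 13 with hadef
    set b := (w.drop i).take 13 with hbdef
    have ei : w.take i = w.take (i - 13) ++ a := by
      rw [hadef, ← List.take_add]
      congr 1; omega
    have ei2 : w.take (i + 13) = w.take i ++ b := by
      rw [hbdef, ← List.take_add]
    have hla : a.length = 13 := by
      rw [hadef, List.length_take, List.length_drop]; omega
    have hlb : b.length = 13 := by
      rw [hbdef, List.length_take, List.length_drop]; omega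
    have hwab : w = w.take (i - 13) ++ (a ++ b) ++ w.drop (i + 13) := by
      rw [← List.append_assoc, ← ei, ← ei2, List.take_append_drop]
    have hrab : Rd C.cm (a ++ b) := by
      apply hloc _ _ _ hwab
      rw [List.length_append]; omega
    have hra : Rd C.cm a := by
      apply R1 [] a b; simpa using hrab
    have hrb : Rd C.cm b := by
      apply R1 a b []; simpa using hrab
    have epr : pr C.cm y * pr C.cm (a ++ b) = pr C.cm z := by
      rw [hy3, hz3, ei2, ei, P3, P3, P3, mul_assoc]
    have epa : pr C.cm y * pr C.cm a = pr C.cm (w.take i) := by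
      rw [hy3, ei, P3]
    have epb : pr C.cm (w.take i) * pr C.cm b = pr C.cm z := by
      rw [hz3, ei2, P3]
    obtain ⟨c, e, hce, hlen⟩ := hthin x y z a b hy2 hz2 hy1 hz1 hrab epr
    rw [epa] at hlen
    have hfi : len C.cm (pr C.cm (w.take i)) ≤ c.length + 6 := by
      have e1 : pr C.cm (w.take i) = pr C.cm c * ((pr C.cm c)⁻¹ * pr C.cm (w.take i)) := by group
      rw [e1]
      refine le_trans (L3 _ _) ?_
      have := L1 c
      omega
    rcases hce with h | h
    · have hly : len C.cm (pr C.cm (w.take (i - 13))) = c.length + e.length := by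
        rw [← hy3, L2 y hy1, (T3 _ _ h).length_eq, List.length_append]
      have he : 13 ≤ e.length + 6 := by
        rw [← hla, ← L2 a hra]
        have e1 : pr C.cm a = (pr C.cm e)⁻¹ * ((pr C.cm c)⁻¹ * pr C.cm (w.take i)) := by
          rw [← epa, T5 _ _ h, P3]; group
        rw [e1]
        refine le_trans (L3 _ _) ?_
        rw [L4]
        have := L1 e
        omega
      have := hmax (i - 13) (by omega)
      omega
    · have hlz : len C.cm (pr C.cm (w.take (i + 13))) = c.length + e.length := by
        rw [← hz3, L2 z hz1, (T3 _ _ h).length_eq, List.length_append]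
      have he : 13 ≤ e.length + 6 := by
        rw [← hlb, ← L2 b hrb]
        have e1 : pr C.cm b = ((pr C.cm c)⁻¹ * pr C.cm (w.take i))⁻¹ * pr C.cm e := by
          have : pr C.cm b = (pr C.cm (w.take i))⁻¹ * pr C.cm z := by rw [← epb]; group
          rw [this, T5 _ _ h, P3]; group
        rw [e1]
        refine le_trans (L3 _ _) ?_
        rw [L4]
        have := L1 e
        omega
      have := hmax (i + 13) (by omega)
      omega
  by_cases hlw : 26 ≤ w.length
  · exfalso
    have h26 : Rd C.cm (w.take 26) := by
      apply hloc [] (w.take 26) (w.drop 26)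
      · simp
      · rw [List.length_take]; omega
    have h1 := L2 _ h26
    have h2 := hmax 26 (by omega)
    rw [List.length_take] at h1
    omega
  · have hwr : Rd C.cm w := hloc [] w [] (by simp) (by omega)
    have h1 := L2 w hwr
    have h2 := L1 []
    rw [hw1] at h1
    rw [P1] at h2
    rw [h1] at h2
    simpa using h2

end Pool.Agent.H14.PD
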