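import Pool.Agent.H14.PD.Stmts

/-!
Project PD (MP_822040_al): module LOG (a path of length `2 ^ k` passes at distance `6 k` of each
vertex of a geodesic with the same end points).
-/

set_option autoImplicit false

namespace Pool.Agent.H14.PD

theorem pd_log : M_LOG := by
  intro hPRB hTQB hRDB hRDT hLEN hTRB hTRC hTHN Y S C hG
  have hs := C.cm_symm
  have hi := C.cm_irr
  obtain ⟨P1, P2, P3, P4, P5, P6⟩ := hPRB S C.cm
  obtain ⟨T1, T2, T3, T4, T5, T6, T7⟩ := hTQB S C.cm hs
  obtain ⟨R1, R2, R3, R4⟩ := hRDB S C.cm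
  obtain ⟨L1, L2, L3, L4, L5⟩ := hLEN S C.cm hs hi
  obtain ⟨B1, B2, B3, B4⟩ := hTRB Y S C.lab C.act
  obtain ⟨C1, C2, C3, C4⟩ := hTRC Y S C
  have hthin := hTHN Y S C 6 hG
  have hlen1 : len C.cm 1 = 0 := by
    have := L1 []
    rw [P1] at this
    simpa using this
  intro k
  induction k with
  | zero =>
    intro x p a b hp hpl hrab htab hpr
    have hpl' : p.length ≤ 1 := by simpa using hpl
    have hrp := R4 p hpl'
    have h1 := L2 _ hrab
    have h2 := L2 _ hrp
    rw [hpr, h2, List.length_append] at h1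
    rcases a with _ | ⟨s, a⟩
    · refine ⟨[], p, by simp, ?_⟩
      rw [P1]; simp [hlen1]
    · have hb : b = [] := by
        rw [List.length_cons] at h1
        apply List.eq_nil_of_length_eq_zero; omega
      refine ⟨p, [], by simp, ?_⟩
      rw [← hpr, hb, List.append_nil]; simp [hlen1]
  | succ k ih =>
    intro x p a b hp hpl hrab htab hpr
    have hsplit : p.take (2 ^ k) ++ p.drop (2 ^ k) = p := List.take_append_drop _ _
    set p' := p.take (2 ^ k) with hp'
    set p'' := p.drop (2 ^ k) with hp''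
    have hl' : p'.length ≤ 2 ^ k := by rw [hp', List.length_take]; omega
    have hl'' : p''.length ≤ 2 ^ k := by
      rw [hp'', List.length_drop]; rw [pow_succ] at hpl; omega
    rw [← hsplit] at hp
    obtain ⟨htp', htp''⟩ := (B1 _ _ _).1 hp
    obtain ⟨g1, hg1, hg2, hg3, hg4, hg5, hg6⟩ := C3 x _ htp'
    obtain ⟨g2, hh1, hh2, hh3, hh4, hh5, hh6⟩ := C3 _ _ htp''
    have htr1 : Tr C.lab C.act (en C.act x p') g1.reverse := by
      rw [← hg4]; exact (B4 C.inv x g1 hg2).1
    have epr : pr C.cm g1.reverse * pr C.cm (a ++ b) = pr C.cm g2 := by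
      rw [P6, hg3, hpr, hh3, ← hsplit, P3]; group
    obtain ⟨c, e, hce, hlen⟩ := hthin (en C.act x p') g1.reverse g2 a b htr1 hh2 (R2 _ hg1) hh1
      hrab epr
    rcases hce with h | h
    · have h3 : Tq C.cm g1 (e.reverse ++ c.reverse) := by
        have := T4 _ _ h
        rwa [List.reverse_reverse, List.reverse_append] at this
      obtain ⟨q1, q2, hq, hql⟩ := ih x p' e.reverse c.reverse htp' hl'
        (hRDT S C.cm hs hi _ _ h3 hg1) (C1 _ _ _ h3 hg2).1 (by rw [← T5 _ _ h3, hg3])
      refine ⟨q1, q2 ++ p'', ?_, ?_⟩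
      · rw [← hsplit, hq, List.append_assoc]
      · have e1 : (pr C.cm a)⁻¹ * pr C.cm q1 =
            ((pr C.cm c)⁻¹ * (pr C.cm g1.reverse * pr C.cm a))⁻¹ *
              ((pr C.cm e.reverse)⁻¹ * pr C.cm q1) := by
          rw [T5 _ _ h, P3, P6]; group
        rw [e1]
        refine le_trans (L3 _ _) ?_
        rw [L4]
        have := Nat.mul_succ 6 k
        omega
    · obtain ⟨q1, q2, hq, hql⟩ := ih (en C.act x p') p'' c e htp'' hl''
        (hRDT S C.cm hs hi _ _ h hh1) (C1 _ _ _ h hh2).1 (by rw [← T5 _ _ h, hh3])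
      refine ⟨p' ++ q1, q2, ?_, ?_⟩
      · rw [← hsplit, hq, List.append_assoc]
      · have e1 : (pr C.cm a)⁻¹ * pr C.cm (p' ++ q1) =
            ((pr C.cm c)⁻¹ * (pr C.cm g1.reverse * pr C.cm a))⁻¹ *
              ((pr C.cm c)⁻¹ * pr C.cm q1) := by
          rw [P3, P6, hg3]; group
        rw [e1]
        refine le_trans (L3 _ _) ?_
        rw [L4]
        have := Nat.mul_succ 6 k
        omega

end Pool.Agent.H14.PD
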