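import Pool.Agent.H14.PD.Stmts

/-!
Project PD (MP_822040_al): module THN (thin triangles).
-/

set_option autoImplicit false

namespace Pool.Agent.H14.PD

theorem pd_thn : M_THN := by
  intro hPRB hTQB hRDB hRDT hVDW hLEV hMEE hLEN hTRB hTRC
  intro Y S C N hG x y z a b hy hz hry hrz hrab hpr
  have hs := C.cm_symm
  have hi := C.cm_irr
  obtain ⟨P1, P2, P3, P4, P5, P6⟩ := hPRB S C.cm
  obtain ⟨T1, T2, T3, T4, T5, T6, T7⟩ := hTQB S C.cm hs
  obtain ⟨R1, R2, R3, R4⟩ := hRDB S C.cm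
  obtain ⟨L1, L2, L3, L4, L5⟩ := hLEN S C.cm hs hi
  obtain ⟨B1, B2, B3, B4⟩ := hTRB Y S C.lab C.act
  obtain ⟨C1, C2, C3, C4⟩ := hTRC Y S C
  have htrans : ∀ u v w : List S, Tq C.cm u v → Tq C.cm v w → Tq C.cm u w := by
    intro u v w h1 h2
    exact Relation.ReflTransGen.trans h1 h2
  obtain ⟨m, y', z', hym, hzm, hred⟩ := hMEE S C.cm hs hi y z hry hrz
  have e1 : pr C.cm y = pr C.cm m * pr C.cm y' := by rw [T5 _ _ hym, P3]
  have e2 : pr C.cm z = pr C.cm m * pr C.cm z' := by rw [T5 _ _ hzm, P3]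
  have e3 : pr C.cm (a ++ b) = pr C.cm (y'.reverse ++ z') := by
    rw [P3 y'.reverse z', P6]
    have : pr C.cm (a ++ b) = (pr C.cm y)⁻¹ * pr C.cm z := by
      rw [← hpr]; group
    rw [this, e1, e2]; group
  have e4 : Tq C.cm (a ++ b) (y'.reverse ++ z') := hVDW S C.cm hs hi _ _ hrab hred e3
  obtain ⟨a1, a2, b1, b2, ha, hb, hy1, hz1, hcom⟩ := hLEV S C.cm hs hi _ _ _ _ e4
  have hy2 : Tq C.cm y' (b1.reverse ++ a1.reverse) := by
    have := T4 _ _ hy1
    rw [List.reverse_reverse, List.reverse_append] at this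
    exact this
  have hY : Tq C.cm y (m ++ (b1.reverse ++ a1.reverse)) := by
    refine htrans _ _ _ hym ?_
    have := T2 _ _ m [] hy2
    simpa using this
  have hZ : Tq C.cm z (m ++ (a2 ++ b2)) := by
    refine htrans _ _ _ hzm ?_
    have := T2 _ _ m [] hz1
    simpa using this
  have tY := (C1 _ _ _ hY hy).1
  have tZ := (C1 _ _ _ hZ hz).1
  have tY2 := ((B1 _ _ _).1 tY).2
  have tZ2 := ((B1 _ _ _).1 tZ).2
  have tb1 : Tr C.lab C.act (en C.act x m) b1.reverse := ((B1 _ _ _).1 tY2).1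
  have ta2 : Tr C.lab C.act (en C.act x m) a2 := ((B1 _ _ _).1 tZ2).1
  have rY := hRDT S C.cm hs hi _ _ hY hry
  have rZ := hRDT S C.cm hs hi _ _ hZ hrz
  have rb1 : Rd C.cm b1.reverse := by
    apply R1 m b1.reverse a1.reverse
    simpa using rY
  have ra2 : Rd C.cm a2 := by
    apply R1 m a2 b2
    simpa using rZ
  have hc2 : ∀ s ∈ b1.reverse, ∀ t ∈ a2, C.cm s t := by
    intro s hs1 t ht
    exact hs _ _ (hcom t ht s (by simpa using hs1))
  have e5 : pr C.cm a = pr C.cm a1 * pr C.cm a2 := by rw [T5 _ _ ha, P3]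
  have e6 : pr C.cm y' = (pr C.cm b1)⁻¹ * (pr C.cm a1)⁻¹ := by
    rw [T5 _ _ hy2, P3, P6, P6]
  have e7 : pr C.cm a2 * pr C.cm b1 = pr C.cm b1 * pr C.cm a2 := by
    have := T5 _ _ (T7 a2 b1 hcom)
    rwa [P3, P3] at this
  rcases hG (en C.act x m) b1.reverse a2 tb1 ta2 rb1 ra2 hc2 with h | h
  · refine ⟨m ++ a2, b2, Or.inr ?_, ?_⟩
    · simpa using hZ
    · have : (pr C.cm (m ++ a2))⁻¹ * (pr C.cm y * pr C.cm a) = pr C.cm b1.reverse := by
        rw [P3, e1, e6, e5, P6]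
        have e8 : (pr C.cm b1)⁻¹ * pr C.cm a2 = pr C.cm a2 * (pr C.cm b1)⁻¹ := by
          rw [inv_mul_eq_iff_eq_mul, ← mul_assoc, ← e7]; group
        calc (pr C.cm m * pr C.cm a2)⁻¹ * (pr C.cm m * ((pr C.cm b1)⁻¹ * (pr C.cm a1)⁻¹) *
              (pr C.cm a1 * pr C.cm a2))
            = (pr C.cm a2)⁻¹ * ((pr C.cm b1)⁻¹ * pr C.cm a2) := by group
          _ = (pr C.cm b1)⁻¹ := by rw [e8]; group
      rw [this]
      exact le_trans (L1 _) h
  · refine ⟨m ++ b1.reverse, a1.reverse, Or.inl ?_, ?_⟩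
    · simpa using hY
    · have : (pr C.cm (m ++ b1.reverse))⁻¹ * (pr C.cm y * pr C.cm a) = pr C.cm a2 := by
        rw [P3, e1, e6, e5, P6]
        group
      rw [this]
      exact le_trans (L1 _) h

end Pool.Agent.H14.PD
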